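import Pool.Agent.Lib.MP_4fbe7c_an.WN.Base

/-!
Project WN (MP_4fbe7c_an), module DRG: gradients of the partial derivatives of the density
(helper6).
-/

set_option autoImplicit false

open Set MeasureTheory

namespace Pool.Agent.Lib.MP_4fbe7c_an.WN.H06

open Pool.Agent.Lib.MP_4fbe7c_an.UL Pool.Agent.Lib.MP_4fbe7c_an.ND

variable {p : ℕ} {Ω : Set (Eu p)} {q : Eu p → ℝ}

theorem hasDerivAt_hw (y : ℝ) : HasDerivAt hw (hw1 y) y := by
  have h1 : HasDerivAt (fun y : ℝ => 4 - 4 * y) (-4) y := by
    have := ((hasDerivAt_id y).const_mul 4).const_sub 4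
    simpa using this
  have h2 := ((h1.exp).const_add 1).div_const 2
  have h3 : (Real.exp (4 - 4 * y) * -4) / 2 = hw1 y := by
    unfold hw1
    ring
  rw [h3] at h2
  exact h2

theorem hasDerivAt_hw1 (y : ℝ) : HasDerivAt hw1 (hw2 y) y := by
  have h1 : HasDerivAt (fun y : ℝ => 4 - 4 * y) (-4) y := by
    have := ((hasDerivAt_id y).const_mul 4).const_sub 4
    simpa using this
  have h2 := (h1.exp).const_mul (-2)
  have h3 : -2 * (Real.exp (4 - 4 * y) * -4) = hw2 y := by
    unfold hw2
    ring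
  rw [h3] at h2
  exact h2

theorem continuous_hw1 : Continuous hw1 := by
  unfold hw1
  fun_prop

theorem continuous_hw2 : Continuous hw2 := by
  unfold hw2
  fun_prop

/-- Composition with a function which is smooth on a set. -/
theorem c1_comp_on {φ φ' : ℝ → ℝ} {S : Set ℝ} {f : Eu p → ℝ} {f' : Eu p → Eu p}
    (hφ : ∀ y ∈ S, HasDerivAt φ (φ' y) y) (hφ' : ContinuousOn φ' S) (hf : C1 Ω f f')
    (hS : ∀ x ∈ closure Ω, f x ∈ S) :
    C1 Ω (fun x => φ (f x)) (fun x => φ' (f x) • f' x) := by
  refine ⟨?_, ?_, ?_⟩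
  · have h1 : ContinuousOn φ S := fun y hy => (hφ y hy).continuousAt.continuousWithinAt
    exact h1.comp hf.c0 hS
  · exact (hφ'.comp hf.c0 hS).smul hf.c1
  · intro x hx
    exact HasGradientAt.comp' (hφ (f x) (hS x (subset_closure hx))) (hf.d1 x hx)

theorem c1_comp {φ φ' : ℝ → ℝ} {f : Eu p → ℝ} {f' : Eu p → Eu p}
    (hφ : ∀ y, HasDerivAt φ (φ' y) y) (hφ' : Continuous φ') (hf : C1 Ω f f') :
    C1 Ω (fun x => φ (f x)) (fun x => φ' (f x) • f' x) :=
  c1_comp_on (S := univ) (fun y _ => hφ y) hφ'.continuousOn hf fun _ _ => mem_univ _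

theorem c1_qv {n k : ℕ} {r : ℕ → Eu p → ℝ} {r' : ℕ → Eu p → Eu p}
    (h : ∀ j, j ≤ n → C1 Ω (r j) (r' j)) :
    C1 Ω (fun x => qv n (fun j => r j x) k) (fun x => qv n (fun j => r' j x) k) := by
  unfold qv
  exact C1.sum _ fun j hj => h j (by have := (Finset.mem_Ico.mp hj).2; omega)

theorem c1_Nq {n : ℕ} (κ : ℕ → ℝ) (a b : ℝ) {r : ℕ → Eu p → ℝ} {r' : ℕ → Eu p → Eu p}
    (h : ∀ j, j ≤ n → C1 Ω (r j) (r' j)) :
    C1 Ω (fun x => Nq n κ a b (fun j => r j x))
      (fun x => Ng n κ a b (fun j => r j x) (fun j => r' j x)) := by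
  have h1 := (C1.const_mul a ((c1_qv (k := 1) h).mul (c1_qv (k := 1) h))).add
    (C1.const_mul b (C1.sum (Finset.Ico 2 (n + 1))
      fun k _ => C1.const_mul (al κ k) ((c1_qv (k := k) h).mul (c1_qv (k := k) h))))
  have e1 : (fun x => Nq n κ a b (fun j => r j x)) =
      (fun x => a * (qv n (fun j => r j x) 1 * qv n (fun j => r j x) 1)
        + b * ∑ k ∈ Finset.Ico 2 (n + 1),
          al κ k * (qv n (fun j => r j x) k * qv n (fun j => r j x) k)) := by
    funext x
    simp only [Nq, pow_two]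
  have e2 : (fun x => Ng n κ a b (fun j => r j x) (fun j => r' j x)) =
      (fun x => a • (qv n (fun j => r j x) 1 • qv n (fun j => r' j x) 1
          + qv n (fun j => r j x) 1 • qv n (fun j => r' j x) 1)
        + b • ∑ k ∈ Finset.Ico 2 (n + 1),
          al κ k • (qv n (fun j => r j x) k • qv n (fun j => r' j x) k
            + qv n (fun j => r j x) k • qv n (fun j => r' j x) k)) := by
    funext x
    simp only [Ng]
    rw [Finset.smul_sum]
    congr 1
    · module
    · refine Finset.sum_congr rfl fun k _ => ?_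
      module
  rw [e1, e2]
  exact h1

theorem c1_Sb {n : ℕ} (κ : ℕ → ℝ) (a b : ℝ) (i : ℕ) {r : ℕ → Eu p → ℝ} {r' : ℕ → Eu p → Eu p}
    (h : ∀ j, j ≤ n → C1 Ω (r j) (r' j)) :
    C1 Ω (fun x => Sb n κ a b (fun j => r j x) i)
      (fun x => Sg n κ a b (fun j => r' j x) i) := by
  have h1 := (C1.const_mul a (c1_qv (k := 1) h)).add
    (C1.const_mul b (C1.sum (Finset.Ico 2 (i + 1))
      fun k _ => C1.const_mul (al κ k) (c1_qv (k := k) h)))
  have e2 : (fun x => Sg n κ a b (fun j => r' j x) i) =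
      (fun x => a • qv n (fun j => r' j x) 1
        + b • ∑ k ∈ Finset.Ico 2 (i + 1), al κ k • qv n (fun j => r' j x) k) := by
    funext x
    simp only [Sg]
    rw [Finset.smul_sum]
    congr 1
    refine Finset.sum_congr rfl fun k _ => ?_
    module
  rw [e2]
  exact h1

theorem drg_st (hPHI : PhiStatement) : DrgStatement := by
  intro p Ω q n κ a b r r' i _hΩ hi h hpos
  have hq0 := c1_qv (k := 0) h
  have hq1 := c1_qv (k := 1) h
  have hN := c1_Nq κ a b h
  have hS := c1_Sb κ a b i h
  have hw' := c1_comp hasDerivAt_hw continuous_hw1 hq0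
  have hw1' := c1_comp hasDerivAt_hw1 continuous_hw2 hq0
  have hP : C1 Ω (fun x => Ph1 (r 0 x)) (fun x => Ph2 (r 0 x) • r' 0 x) :=
    c1_comp_on (S := Ioi 0) (fun y hy => (hPHI.1 y hy).2.1) hPHI.2 (h 0 (Nat.zero_le n))
      fun x hx => hpos x hx
  have hT : C1 Ω (fun x => hw1 (qv n (fun j => r j x) 0) / 2 * Nq n κ a b (fun j => r j x))
      (fun x => (hw1 (qv n (fun j => r j x) 0) / 2) •
          Ng n κ a b (fun j => r j x) (fun j => r' j x)
        + (hw2 (qv n (fun j => r j x) 0) / 2 * Nq n κ a b (fun j => r j x)) •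
          qv n (fun j => r' j x) 0) := by
    have h1 := C1.const_mul (1 / 2) (hw1'.mul hN)
    have e1 : (fun x => hw1 (qv n (fun j => r j x) 0) / 2 * Nq n κ a b (fun j => r j x)) =
        (fun x => 1 / 2 * (hw1 (qv n (fun j => r j x) 0) * Nq n κ a b (fun j => r j x))) := by
      funext x
      ring
    have e2 : (fun x => (hw1 (qv n (fun j => r j x) 0) / 2) •
          Ng n κ a b (fun j => r j x) (fun j => r' j x)
        + (hw2 (qv n (fun j => r j x) 0) / 2 * Nq n κ a b (fun j => r j x)) •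
          qv n (fun j => r' j x) 0) =
        (fun x => (1 / 2 : ℝ) • (hw1 (qv n (fun j => r j x) 0) •
          Ng n κ a b (fun j => r j x) (fun j => r' j x)
          + Nq n κ a b (fun j => r j x) • (hw2 (qv n (fun j => r j x) 0) •
            qv n (fun j => r' j x) 0))) := by
      funext x
      module
    rw [e1, e2]
    exact h1
  by_cases h0 : i = 0
  · have h1 := hP.add hT
    have e2 : (fun x => Gf n κ a b (fun j => r j x) (fun j => r' j x) i) =
        (fun x => Ph2 (r 0 x) • r' 0 x +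
          ((hw1 (qv n (fun j => r j x) 0) / 2) •
            Ng n κ a b (fun j => r j x) (fun j => r' j x)
          + (hw2 (qv n (fun j => r j x) 0) / 2 * Nq n κ a b (fun j => r j x)) •
            qv n (fun j => r' j x) 0)) := by
      funext x
      simp only [Gf, if_pos h0]
      abel
    have e1 : (fun x => Ff n κ a b (fun j => r j x) i) =
        (fun x => Ph1 (r 0 x) +
          hw1 (qv n (fun j => r j x) 0) / 2 * Nq n κ a b (fun j => r j x)) := by
      funext x
      simp only [Ff, if_pos h0]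
    rw [e1, e2]
    exact h1
  · have h1 := (hq1.add (hw'.mul hS)).add hT
    have e2 : (fun x => Gf n κ a b (fun j => r j x) (fun j => r' j x) i) =
        (fun x => (qv n (fun j => r' j x) 1 +
          (hw (qv n (fun j => r j x) 0) • Sg n κ a b (fun j => r' j x) i
            + Sb n κ a b (fun j => r j x) i • (hw1 (qv n (fun j => r j x) 0) •
              qv n (fun j => r' j x) 0))) +
          ((hw1 (qv n (fun j => r j x) 0) / 2) •
            Ng n κ a b (fun j => r j x) (fun j => r' j x)
          + (hw2 (qv n (fun j => r j x) 0) / 2 * Nq n κ a b (fun j => r j x)) •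
            qv n (fun j => r' j x) 0)) := by
      funext x
      simp only [Gf, if_neg h0]
      module
    have e1 : (fun x => Ff n κ a b (fun j => r j x) i) =
        (fun x => (qv n (fun j => r j x) 1 +
          hw (qv n (fun j => r j x) 0) * Sb n κ a b (fun j => r j x) i) +
          hw1 (qv n (fun j => r j x) 0) / 2 * Nq n κ a b (fun j => r j x)) := by
      funext x
      simp only [Ff, if_neg h0]
    rw [e1, e2]
    exact h1

end Pool.Agent.Lib.MP_4fbe7c_an.WN.H06
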